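import Mathlib

namespace Pool.Agent.Results.MP_62e324_al.Ore

open Matrix MulOpposite Finset Filter

/-- Right strong rank condition: no injective right-linear map `A^(n+1) → A^n`, `n ≥ 1`. -/
def RSRC (A : Type*) [Ring A] : Prop :=
  ∀ n : ℕ, 1 ≤ n → ∀ f : (Fin (n + 1) → A) →ₗ[Aᵐᵒᵖ] (Fin n → A), ¬ Function.Injective f

/-- `A` with `ι : R → A` and `x` is the Ore extension `R[x; σ, δ]`: `x r = σ(r) x + δ(r)` and every
element is uniquely a polynomial `∑ r_i x^i` with left coefficients. -/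
def IsOre {R A : Type*} [Ring R] [Ring A] (σ : R →+* R) (δ : R →+ R) (ι : R →+* A) (x : A) : Prop :=
  (∀ r, x * ι r = ι (σ r) * x + ι (δ r)) ∧
    Function.Bijective fun p : ℕ →₀ R => p.sum fun i r => ι r * x ^ i

variable {R A : Type*} [Ring R] [Ring A]

def G (ι : R →+* A) (x : A) (d : ℕ) : AddSubgroup A :=
  AddSubgroup.closure {a | ∃ i ≤ d, ∃ r, a = x ^ i * ι r}

variable {ι : R →+* A} {x : A}

lemma gen {d i : ℕ} (h : i ≤ d) (r : R) : x ^ i * ι r ∈ G ι x d :=
  AddSubgroup.subset_closure ⟨i, h, r, rfl⟩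

lemma mono {d e : ℕ} (h : d ≤ e) : G ι x d ≤ G ι x e :=
  AddSubgroup.closure_mono fun _ ⟨i, hi, r, hr⟩ => ⟨i, hi.trans h, r, hr⟩

lemma sand {d : ℕ} {a : A} (h : a ∈ G ι x d) (j : ℕ) (s : R) :
    x ^ j * a * ι s ∈ G ι x (j + d) := by
  induction h using AddSubgroup.closure_induction with
  | mem a ha =>
    obtain ⟨i, hi, r, rfl⟩ := ha
    rw [← mul_assoc, ← pow_add, mul_assoc, ← map_mul]
    exact gen (by omega) _
  | zero => simp
  | add a b _ _ ha hb => rw [mul_add, add_mul]; exact add_mem ha hb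
  | neg a _ ha => rw [mul_neg, neg_mul]; exact neg_mem ha

section
variable (hx : ∀ r, ∃ s t, ι r * x = x * ι s + ι t)
include hx

lemma mulx {d : ℕ} {a : A} (h : a ∈ G ι x d) : a * x ∈ G ι x (d + 1) := by
  induction h using AddSubgroup.closure_induction with
  | mem a ha =>
    obtain ⟨i, hi, r, rfl⟩ := ha
    obtain ⟨s, t, h⟩ := hx r
    rw [mul_assoc, h, mul_add, ← mul_assoc, ← pow_succ]
    exact add_mem (gen (by omega) _) (gen (by omega) _)
  | zero => simp
  | add a b _ _ ha hb => rw [add_mul]; exact add_mem ha hb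
  | neg a _ ha => rw [neg_mul]; exact neg_mem ha

lemma mulp {d : ℕ} {a : A} (h : a ∈ G ι x d) (j : ℕ) : a * x ^ j ∈ G ι x (d + j) := by
  induction j with
  | zero => simpa using h
  | succ j ih => rw [pow_succ, ← mul_assoc]; exact mulx hx ih

lemma mulG {d e : ℕ} {a b : A} (ha : a ∈ G ι x d) (hb : b ∈ G ι x e) :
    a * b ∈ G ι x (d + e) := by
  induction hb using AddSubgroup.closure_induction with
  | mem b hb =>
    obtain ⟨i, hi, r, rfl⟩ := hb
    have := sand (mulp hx ha i) 0 r
    rw [pow_zero, one_mul, mul_assoc] at this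
    exact mono (by omega) this
  | zero => simp
  | add b c _ _ hb hc => rw [mul_add]; exact add_mem hb hc
  | neg b _ hb => rw [mul_neg]; exact neg_mem hb
end

lemma rep {d : ℕ} {a : A} (h : a ∈ G ι x d) :
    ∃ c : Fin (d + 1) → R, a = ∑ i : Fin (d + 1), x ^ (i : ℕ) * ι (c i) := by
  induction h using AddSubgroup.closure_induction with
  | mem a ha =>
    obtain ⟨i, hi, r, rfl⟩ := ha
    refine ⟨Pi.single ⟨i, by omega⟩ r, ?_⟩
    rw [Finset.sum_eq_single ⟨i, by omega⟩ (fun j _ hj => by simp [hj]) (by simp)]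
    simp
  | zero => exact ⟨0, by simp⟩
  | add a b _ _ ha hb =>
    obtain ⟨c, rfl⟩ := ha
    obtain ⟨c', rfl⟩ := hb
    exact ⟨c + c', by simp [mul_add, sum_add_distrib]⟩
  | neg a _ ha =>
    obtain ⟨c, rfl⟩ := ha
    exact ⟨-c, by simp⟩

def E (ι : R →+* A) (x : A) (d a b : ℕ) : Prop :=
  ∃ M : Matrix (Fin a) (Fin b) A, (∀ i j, M i j ∈ G ι x d) ∧ ∀ v, M *ᵥ v = 0 → v = 0

lemma E.block {d a b : ℕ} (h : E ι x d a b) (k : ℕ) : E ι x d (a * k) (b * k) := by
  obtain ⟨M, h1, h2⟩ := h
  refine ⟨(blockDiagonal fun _ : Fin k => M).submatrix finProdFinEquiv.symm finProdFinEquiv.symm,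
    fun i j => ?_, fun v hv => ?_⟩
  · simp only [submatrix_apply, blockDiagonal_apply]
    split_ifs
    · exact h1 _ _
    · exact zero_mem _
  · rw [submatrix_mulVec_equiv] at hv
    funext j
    obtain ⟨⟨j, t⟩, rfl⟩ := finProdFinEquiv.surjective j
    refine congrFun (h2 (fun j => v (finProdFinEquiv (j, t))) (funext fun i => ?_)) j
    have := congrFun hv (finProdFinEquiv (i, t))
    simp only [Function.comp, Equiv.symm_apply_apply, mulVec, dotProduct, Fintype.sum_prod_type,
      blockDiagonal_apply, Equiv.symm_symm, ite_mul, zero_mul, sum_ite_eq, mem_univ,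
      if_true] at this
    exact this

theorem result {R A : Type*} [Ring R] [Ring A] (σ : R →+* R) (δ : R →+ R)
    (_hδ : ∀ r s, δ (r * s) = δ r * s + σ r * δ s) (hσ : Function.Surjective σ)
    (ι : R →+* A) (x : A) (hA : IsOre σ δ ι x) (hR : RSRC R) : RSRC A := by
  intro n hn f hf
  have hx : ∀ r, ∃ s t, ι r * x = x * ι s + ι t := fun r => by
    obtain ⟨s, rfl⟩ := hσ r
    exact ⟨s, -δ s, by rw [hA.1]; simp⟩
  have hι : ∀ r, ι r = 0 → r = 0 := fun r h => by
    have := hA.2.1 (a₁ := Finsupp.single 0 r) (a₂ := 0) (by simp [h])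
    simpa using this
  have hG : ∀ a : A, ∃ d, a ∈ G ι x d := by
    intro a
    obtain ⟨p, rfl⟩ := hA.2.2 a
    refine ⟨p.support.sup id, sum_mem fun i hi => ?_⟩
    have := mulp hx (gen (x := x) (ι := ι) (le_refl 0) (p i)) i
    rw [pow_zero, one_mul, zero_add] at this
    exact mono (le_sup (f := id) hi) this
  choose dg hdg using hG
  let M : Matrix (Fin n) (Fin (n + 1)) A := fun i j => f (Pi.single j 1) i
  obtain ⟨D, hD⟩ : ∃ D, E ι x D n (n + 1) := by
    refine ⟨univ.sup fun p : Fin n × Fin (n + 1) => dg (M p.1 p.2), M, fun i j =>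
      mono (le_sup (f := fun p : Fin n × Fin (n + 1) => dg (M p.1 p.2)) (mem_univ (i, j))) (hdg _),
      fun v hv => hf ?_⟩
    have e : v = ∑ j, op (v j) • Pi.single j (1 : A) := by
      funext k
      simp [Finset.sum_apply, Pi.single_apply]
    rw [map_zero, e, map_sum, ← hv]
    funext i
    simp only [map_smul, Finset.sum_apply, Pi.smul_apply, op_smul_eq_mul]
    rfl
  have hE : ∀ t, E ι x (t * D) (n ^ t) ((n + 1) ^ t) := by
    intro t
    induction t with
    | zero =>
      show E ι x (0 * D) 1 1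
      refine ⟨1, fun i j => ?_, fun v hv => by simpa using hv⟩
      have := gen (x := x) (ι := ι) (Nat.zero_le (0 * D)) 1
      simpa [one_apply, Subsingleton.elim i j] using this
    | succ t ih =>
      obtain ⟨P, p1, p2⟩ := ih.block n
      have := hD.block ((n + 1) ^ t)
      rw [mul_comm n, ← pow_succ'] at this
      obtain ⟨N, q1, q2⟩ := this
      refine ⟨P * N, fun i j => ?_, fun v hv => q2 v (p2 _ ?_)⟩
      · rw [add_mul, one_mul, mul_apply]; exact sum_mem fun k _ => mulG hx (p1 _ _) (q1 _ _)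
      · exact (mulVec_mulVec _ _ _).trans hv
  obtain ⟨t, ht⟩ : ∃ t, n ^ t * (t * D + 1) + 1 ≤ (n + 1) ^ t := by
    have h0 : (0 : ℝ) < n := by exact_mod_cast hn
    have hr : (1 : ℝ) < (n + 1) / n := by rw [one_lt_div h0]; linarith
    have := (tendsto_pow_const_div_const_pow_of_one_lt 1 hr).eventually
      (gt_mem_nhds (show (0 : ℝ) < 1 / (D + 1) by positivity))
    obtain ⟨t, h1, h2⟩ := (this.and (eventually_ge_atTop 1)).exists
    refine ⟨t, Nat.succ_le_of_lt ?_⟩
    rw [pow_one, div_lt_div_iff₀ (by positivity) (by positivity), one_mul, div_pow,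
      lt_div_iff₀ (by positivity)] at h1
    have h3 : t * (D + 1) * n ^ t < (n + 1) ^ t := by exact_mod_cast h1
    refine lt_of_le_of_lt ?_ h3
    rw [mul_comm]
    exact Nat.mul_le_mul_right _ (by nlinarith)
  obtain ⟨P, p1, p2⟩ := hE t
  choose c hc using fun i j => rep (p1 i j)
  let N : Matrix (Fin (n ^ t * (t * D + 1))) (Fin (n ^ t * (t * D + 1) + 1)) R := fun i j =>
    c (finProdFinEquiv.symm i).1 (Fin.castLE ht j) (finProdFinEquiv.symm i).2
  refine hR _ (Nat.mul_pos (by positivity) (by omega))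
    { toFun := N.mulVec
      map_add' := mulVec_add N
      map_smul' := fun q v => by
        funext i
        simp [mulVec, dotProduct, Finset.sum_mul, mul_assoc] } ?_
  rw [injective_iff_map_eq_zero]
  intro v hv
  let w : Fin ((n + 1) ^ t) → A := Function.extend (Fin.castLE ht) (fun j => ι (v j)) 0
  have hw : ∀ j, w (Fin.castLE ht j) = ι (v j) := (Fin.castLE_injective ht).extend_apply _ _
  have := p2 w (funext fun i => ?_)
  · exact funext fun j => hι _ ((hw j).symm.trans (congrFun this _))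
  have e : ∑ j, P i j * w j = ∑ j, P i (Fin.castLE ht j) * ι (v j) := by
    symm
    refine Fintype.sum_of_injective _ (Fin.castLE_injective ht) _ _ (fun j hj => ?_)
      (fun j => by rw [hw])
    simp [w, Function.extend_apply' _ _ _ hj]
  show ∑ j, P i j * w j = 0
  rw [e]
  simp only [hc, sum_mul, mul_assoc, ← map_mul]
  rw [sum_comm]
  refine sum_eq_zero fun k _ => ?_
  have := congrFun hv (finProdFinEquiv (i, k))
  simp only [LinearMap.coe_mk, AddHom.coe_mk, mulVec, dotProduct, N, Equiv.symm_apply_apply,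
    Pi.zero_apply] at this
  rw [← mul_sum, ← map_sum, this]
  simp

end Pool.Agent.Results.MP_62e324_al.Ore
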